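import Pool.Agent.helper26.AP.SpecQ

set_option autoImplicit false

namespace Pool.Agent.AP

open Finset NumberField Pool.Agent.helper3.FT Pool.Agent.helper47.RA Pool.Agent.T5

theorem QA3 (hQA1 : QA1_stmt) : QA3_stmt := by
  intro p N Y r z y q x hp hB hq hqr hqz hqd
  obtain ⟨hr1, hrx, heq, -⟩ := hQA1 p N Y r z y x hp hB
  obtain ⟨z', rfl⟩ := hqz
  obtain ⟨d, hd⟩ := hqd
  have hq0 : 0 < q := hq.pos
  have hqZ : (q : ℤ) ≠ 0 := by exact_mod_cast hq0.ne'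
  have hz' : 1 ≤ z' := by
    have h1 : 1 ≤ q * z' := hB.z1
    rcases Nat.eq_zero_or_pos z' with h0 | h0
    · rw [h0] at h1
      omega
    · exact h0
  have hqI : Prime (q : ℤ) := Nat.prime_iff_prime_int.1 hq
  have hqp : (q : ℤ) ^ p = (q : ℤ) ^ 2 * (q : ℤ) ^ (p - 2) := by
    rw [← pow_add]
    congr 1
    omega
  have hcast : ((q * z' : ℕ) : ℤ) ^ p = (q : ℤ) ^ 2 * ((q : ℤ) ^ (p - 2) * (z' : ℤ) ^ p) := by
    push_cast
    rw [mul_pow, hqp]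
    ring
  rw [hd, hcast] at heq
  have hqx2 : (q : ℤ) ∣ x ^ 2 := by
    refine ⟨(q : ℤ) * d * (y : ℤ) ^ 2 +
      4 * (r : ℤ) * ((q : ℤ) * ((q : ℤ) ^ (p - 2) * (z' : ℤ) ^ p)), ?_⟩
    linear_combination -heq
  obtain ⟨x', rfl⟩ := hqI.dvd_of_dvd_pow hqx2
  have heq' : d * (y : ℤ) ^ 2 = x' ^ 2 - 4 * ((r : ℤ) * (q : ℤ) ^ (p - 2)) * (z' : ℤ) ^ p := by
    have h2 : (q : ℤ) ^ 2 ≠ 0 := pow_ne_zero _ hqZ
    apply mul_left_cancel₀ h2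
    linear_combination heq
  have hcop : IsCoprime (r : ℤ) (q : ℤ) :=
    Nat.isCoprime_iff_coprime.2 ((Nat.Prime.coprime_iff_not_dvd hq).2 hqr).symm
  have hrx' : (r : ℤ) ∣ x' := hcop.dvd_of_dvd_mul_left hrx
  have hco : Nat.Coprime y (r * (q * z')) := hB.co
  have hyr : Nat.Coprime y r := Nat.Coprime.coprime_dvd_right (dvd_mul_right _ _) hco
  have hyqz : Nat.Coprime y (q * z') := Nat.Coprime.coprime_dvd_right (dvd_mul_left _ _) hco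
  have hyq : Nat.Coprime y q := Nat.Coprime.coprime_dvd_right (dvd_mul_right _ _) hyqz
  have hyz : Nat.Coprime y z' := Nat.Coprime.coprime_dvd_right (dvd_mul_left _ _) hyqz
  have hrR : (0 : ℝ) < r := by exact_mod_cast hr1
  have hqR : (0 : ℝ) < q := by exact_mod_cast hq0
  have hyR : (0 : ℝ) < y := by
    have := hB.y1
    exact_mod_cast this
  have hdR : ((dp p (r, q * z', y, (q : ℤ) * x') : ℤ) : ℝ) = (q : ℝ) ^ 2 * d := by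
    rw [hd]
    push_cast
    ring
  have hreal : (d : ℝ) * (y : ℝ) ^ 2 =
      (x' : ℝ) ^ 2 - 4 * ((r : ℝ) * (q : ℝ) ^ (p - 2)) * (z' : ℝ) ^ p := by
    exact_mod_cast heq'
  have hY1 : Y / 2 < (r : ℝ) * ((q * z' : ℕ) : ℝ) := hB.Y1
  have hY2 : (r : ℝ) * ((q * z' : ℕ) : ℝ) ≤ Y := hB.Y2
  push_cast at hY1 hY2
  have hN1 : N / 2 < -((dp p (r, q * z', y, (q : ℤ) * x') : ℤ) : ℝ) := hB.N1
  have hN2 : -((dp p (r, q * z', y, (q : ℤ) * x') : ℤ) : ℝ) ≤ N := hB.N2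
  rw [hdR] at hN1 hN2
  have hrq : (0 : ℝ) < r * q := mul_pos hrR hqR
  have hq2 : (0 : ℝ) < (q : ℝ) ^ 2 := by positivity
  have hy2 : (0 : ℝ) < (y : ℝ) ^ 2 := by positivity
  refine ⟨z', x', hz', rfl, rfl, ?_, ?_, ?_, ?_, ?_, ?_, ?_, ?_⟩
  · change Y / ((r : ℝ) * q) / 2 < (z' : ℝ)
    rw [div_div, div_lt_iff₀ (by positivity)]
    linarith
  · change (z' : ℝ) ≤ Y / ((r : ℝ) * q)
    rw [le_div_iff₀ hrq]
    linarith
  · exact hB.y1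
  · change Nat.Coprime (y * 1) (r * q ^ (p - 2) * z')
    rw [mul_one]
    exact Nat.Coprime.mul_right (Nat.Coprime.mul_right hyr (Nat.Coprime.pow_right _ hyq)) hyz
  · exact hrx'
  · change ((y * 1 : ℕ) : ℤ) ^ 2 ∣ x' ^ 2 - 4 * ((r * q ^ (p - 2) : ℕ) : ℤ) * (z' : ℤ) ^ p
    rw [mul_one]
    push_cast
    rw [← heq']
    exact dvd_mul_left _ _
  · change N / (q : ℝ) ^ 2 / 2 * (y : ℝ) ^ 2 <
      4 * ((r * q ^ (p - 2) : ℕ) : ℝ) * (z' : ℝ) ^ p - (x' : ℝ) ^ 2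
    push_cast
    have h3 : 4 * ((r : ℝ) * (q : ℝ) ^ (p - 2)) * (z' : ℝ) ^ p - (x' : ℝ) ^ 2 =
        -(d : ℝ) * (y : ℝ) ^ 2 := by linear_combination hreal
    rw [h3]
    apply mul_lt_mul_of_pos_right _ hy2
    rw [div_div, div_lt_iff₀ (by positivity)]
    nlinarith
  · change 4 * ((r * q ^ (p - 2) : ℕ) : ℝ) * (z' : ℝ) ^ p - (x' : ℝ) ^ 2 ≤
      N / (q : ℝ) ^ 2 * (y : ℝ) ^ 2
    push_cast
    have h3 : 4 * ((r : ℝ) * (q : ℝ) ^ (p - 2)) * (z' : ℝ) ^ p - (x' : ℝ) ^ 2 =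
        -(d : ℝ) * (y : ℝ) ^ 2 := by linear_combination hreal
    rw [h3]
    apply mul_le_mul_of_nonneg_right _ hy2.le
    rw [le_div_iff₀ hq2]
    linarith

end Pool.Agent.AP
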