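import Pool.Agent.helper26.AP.SpecQ

set_option autoImplicit false

/-!
Row ap:QS4 (MP_16912e_nt): the tuples with a large conductor prime to `r z`.
-/

namespace Pool.Agent.AP

open Finset NumberField Pool.Agent.helper3.FT Pool.Agent.helper47.RA Pool.Agent.T5

/-- the number of slices -/
theorem QS4_I (N : ℝ) (hN : 1 ≤ N) : N < 2 ^ (⌊Real.logb 2 N⌋₊ + 1) ∧
    ((⌊Real.logb 2 N⌋₊ + 1 : ℕ) : ℝ) ≤ 2 * (1 + Real.log N) := by
  have hN0 : 0 < N := by linarith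
  have hl : 0 ≤ Real.logb 2 N := Real.logb_nonneg (by norm_num) hN
  constructor
  · have h1 : Real.logb 2 N < ((⌊Real.logb 2 N⌋₊ + 1 : ℕ) : ℝ) := by
      push_cast
      exact Nat.lt_floor_add_one _
    have h2 := (Real.logb_lt_iff_lt_rpow (by norm_num : (1 : ℝ) < 2) hN0).1 h1
    rwa [Real.rpow_natCast] at h2
  · have h1 := Nat.floor_le hl
    have h2 : Real.logb 2 N ≤ 2 * Real.log N := by
      rw [Real.logb, div_le_iff₀ (Real.log_pos (by norm_num))]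
      have := Real.log_two_gt_d9
      have := Real.log_nonneg hN
      nlinarith
    push_cast
    have := Real.log_nonneg hN
    linarith

/-- one slice -/
theorem QS4_term (hQU2 : QU2_stmt) (p : ℕ) (β δ c c₂ m ε₁ CU CP N Y : ℝ) (hc : 0 < c) (hmc : m ≤ c)
    (hmc2 : m ≤ c₂) (hε₁ : 0 < ε₁) (hCU : 1 ≤ CU) (hCP : 1 ≤ CP)
    (hUB : ∀ N M Y : ℝ, 1 ≤ M → M ≤ N → 1 ≤ Y → Y ≤ N ^ (β - δ) →
      AA p M Y ≤ CU * N ^ ε₁ * (Y * √M + N ^ (-c₂) * (Y * √N)))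
    (hPR : ∀ N Y : ℝ, 1 ≤ N → 2 ≤ Y → PA N Y ≤ CP * (Y * √N))
    (hN : 1 ≤ N) (hY : 2 ≤ Y) (hYN : Y ≤ N ^ (β - δ)) (i : ℕ) :
    AA p (N / (N ^ c) ^ 2 / 2 ^ i) Y + PA (N / (N ^ c) ^ 2 / 2 ^ i) Y ≤
      (2 * CU + CP) * (N ^ ε₁ * N ^ (-m)) * (Y * √N) := by
  have hN0 : 0 < N := by linarith
  set M := N / (N ^ c) ^ 2 / 2 ^ i with hM
  have hf1 : 1 ≤ N ^ c := Real.one_le_rpow hN hc.le
  have hR : 0 ≤ (2 * CU + CP) * (N ^ ε₁ * N ^ (-m)) * (Y * √N) := by positivity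
  rcases lt_or_ge M 1 with h | h
  · obtain ⟨h1, h2⟩ := hQU2.1 p M Y h
    rw [h1, h2]
    simpa using hR
  · have hMf : M ≤ N / (N ^ c) ^ 2 := div_le_self (by positivity) (one_le_pow₀ (by norm_num))
    have hMN : M ≤ N := le_trans hMf (div_le_self hN0.le (one_le_pow₀ hf1))
    have hsM : √M ≤ N ^ (-c) * √N := by
      calc √M ≤ √(N / (N ^ c) ^ 2) := Real.sqrt_le_sqrt hMf
        _ = √N / N ^ c := by rw [Real.sqrt_div hN0.le, Real.sqrt_sq (by positivity)]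
        _ = N ^ (-c) * √N := by rw [Real.rpow_neg hN0.le]; ring
    have e1 : N ^ (-c) ≤ N ^ (-m) := Real.rpow_le_rpow_of_exponent_le hN (by linarith)
    have e2 : N ^ (-c₂) ≤ N ^ (-m) := Real.rpow_le_rpow_of_exponent_le hN (by linarith)
    have e3 : 1 ≤ N ^ ε₁ := Real.one_le_rpow hN hε₁.le
    have hs : 0 ≤ √N := Real.sqrt_nonneg _
    have hsM2 : √M ≤ N ^ (-m) * √N := le_trans hsM (mul_le_mul_of_nonneg_right e1 hs)
    have hm0 : 0 < N ^ (-m) := Real.rpow_pos_of_pos hN0 _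
    have a1 := hUB N M Y h hMN (by linarith) hYN
    have a2 := hPR M Y h hY
    have hYM : Y * √M ≤ N ^ (-m) * (Y * √N) := by
      calc Y * √M ≤ Y * (N ^ (-m) * √N) := by gcongr
        _ = N ^ (-m) * (Y * √N) := by ring
    have b1 : AA p M Y ≤ CU * N ^ ε₁ * (N ^ (-m) * (Y * √N) + N ^ (-m) * (Y * √N)) := by
      refine a1.trans ?_
      gcongr
    have b2 : PA M Y ≤ CP * N ^ ε₁ * (N ^ (-m) * (Y * √N)) := by
      calc PA M Y ≤ CP * (Y * √M) := a2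
        _ ≤ CP * (N ^ (-m) * (Y * √N)) := by gcongr
        _ = CP * 1 * (N ^ (-m) * (Y * √N)) := by ring
        _ ≤ CP * N ^ ε₁ * (N ^ (-m) * (Y * √N)) := by gcongr
    calc AA p M Y + PA M Y ≤ CU * N ^ ε₁ * (N ^ (-m) * (Y * √N) + N ^ (-m) * (Y * √N)) +
          CP * N ^ ε₁ * (N ^ (-m) * (Y * √N)) := add_le_add b1 b2
      _ = (2 * CU + CP) * (N ^ ε₁ * N ^ (-m)) * (Y * √N) := by ring

/-- **QS4** -/
theorem QS4 (hQU2 : QU2_stmt) : QS4_stmt := by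
  intro p β hp h5 hUB hPR hFB δ c ε hδ hc hc2 hε
  obtain ⟨c₂, hc₂, hUB⟩ := hUB δ hδ
  obtain ⟨m, hm0, hmc, hmc2⟩ : ∃ m : ℝ, 0 < m ∧ m ≤ c ∧ m ≤ c₂ :=
    ⟨min c c₂, lt_min hc hc₂, min_le_left _ _, min_le_right _ _⟩
  obtain ⟨CF, hCF, hF⟩ := hFB (m / 8) (by positivity)
  obtain ⟨CU, hCU, hU⟩ := hUB (m / 8) (by positivity)
  obtain ⟨CP, hCP, hP⟩ := hPR
  obtain ⟨N₀, hN₀, hE⟩ := QEL (5 * m / 8) (2 * CF * (2 * CU + CP)) ε (by positivity) hε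
  refine ⟨N₀, fun N Y hN hY hYN hYβ => ?_⟩
  have hN1 : 1 ≤ N := le_trans hN₀ hN
  have hN0 : 0 < N := by linarith
  have hY0 : 0 < Y := by linarith
  have hl0 : 0 ≤ Real.log N := Real.log_nonneg hN1
  obtain ⟨hI1, hI2⟩ := QS4_I N hN1
  have hf1 : 1 ≤ N ^ c := Real.one_le_rpow hN1 hc.le
  have hf2 : (N ^ c) ^ 2 ≤ N := by
    rw [← Real.rpow_natCast, ← Real.rpow_mul hN0.le]
    calc N ^ (c * ((2 : ℕ) : ℝ)) ≤ N ^ (1 : ℝ) :=
          Real.rpow_le_rpow_of_exponent_le hN1 (by push_cast; linarith)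
      _ = N := Real.rpow_one N
  refine (hF N Y (N ^ c) hN1 hY hf1 hf2 (⌊Real.logb 2 N⌋₊ + 1) hI1).trans ?_
  have hB0 : 0 ≤ (2 * CU + CP) * (N ^ (m / 8) * N ^ (-m)) * (Y * √N) := by positivity
  have hsum : ∑ i ∈ range (⌊Real.logb 2 N⌋₊ + 1),
      (AA p (N / (N ^ c) ^ 2 / 2 ^ i) Y + PA (N / (N ^ c) ^ 2 / 2 ^ i) Y) ≤
      2 * (1 + Real.log N) * ((2 * CU + CP) * (N ^ (m / 8) * N ^ (-m)) * (Y * √N)) := by
    calc ∑ i ∈ range (⌊Real.logb 2 N⌋₊ + 1),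
          (AA p (N / (N ^ c) ^ 2 / 2 ^ i) Y + PA (N / (N ^ c) ^ 2 / 2 ^ i) Y)
        ≤ ∑ _i ∈ range (⌊Real.logb 2 N⌋₊ + 1),
          ((2 * CU + CP) * (N ^ (m / 8) * N ^ (-m)) * (Y * √N)) := by
          apply Finset.sum_le_sum
          intro i _
          exact QS4_term hQU2 p β δ c c₂ m (m / 8) CU CP N Y hc hmc hmc2 (by positivity) hCU hCP
            hU hP hN1 hY hYβ i
      _ = ((⌊Real.logb 2 N⌋₊ + 1 : ℕ) : ℝ) *
          ((2 * CU + CP) * (N ^ (m / 8) * N ^ (-m)) * (Y * √N)) := by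
          rw [sum_const, card_range, nsmul_eq_mul]
      _ ≤ _ := mul_le_mul_of_nonneg_right hI2 hB0
  have hNY : (N * Y) ^ (m / 8) ≤ N ^ (m / 8) * N ^ (m / 8) := by
    rw [← Real.mul_rpow hN0.le hN0.le]
    exact Real.rpow_le_rpow (by positivity) (by gcongr) (by positivity)
  have hcomb : N ^ (m / 8) * N ^ (m / 8) * (N ^ (m / 8) * N ^ (-m)) = N ^ (-(5 * m / 8)) := by
    rw [← Real.rpow_add hN0, ← Real.rpow_add hN0, ← Real.rpow_add hN0]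
    congr 1
    ring
  have hS : 0 ≤ Y * √N := by positivity
  calc CF * (N * Y) ^ (m / 8) * ∑ i ∈ range (⌊Real.logb 2 N⌋₊ + 1),
        (AA p (N / (N ^ c) ^ 2 / 2 ^ i) Y + PA (N / (N ^ c) ^ 2 / 2 ^ i) Y)
      ≤ CF * (N ^ (m / 8) * N ^ (m / 8)) *
        (2 * (1 + Real.log N) * ((2 * CU + CP) * (N ^ (m / 8) * N ^ (-m)) * (Y * √N))) := by
        apply mul_le_mul (mul_le_mul_of_nonneg_left hNY (by linarith)) hsum
        · apply Finset.sum_nonneg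
          intro i _
          exact add_nonneg (hQU2.2.2 p _ Y).1 (hQU2.2.2 p _ Y).2
        · positivity
    _ = 2 * CF * (2 * CU + CP) * (1 + Real.log N) *
        (N ^ (m / 8) * N ^ (m / 8) * (N ^ (m / 8) * N ^ (-m))) * (Y * √N) := by ring
    _ = 2 * CF * (2 * CU + CP) * (1 + Real.log N) * N ^ (-(5 * m / 8)) * (Y * √N) := by rw [hcomb]
    _ ≤ ε * (Y * √N) := mul_le_mul_of_nonneg_right (hE N hN) hS

end Pool.Agent.AP
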