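import Pool.Agent.helper94.AP.SpecU
import Pool.Agent.helper47.RA.Num

set_option autoImplicit false

namespace Pool.Agent.AP

open Finset

/-- the bound for one pair `(z, y)` -/
theorem MU1_pair (hMUX : MUX_stmt) (hKAP : KAP_stmt) (hRW : RW_stmt) {p : ℕ} (hp : Odd p) {N : ℝ}
    (hN : 1 ≤ N) {Z : ℝ} {c s k : ℕ} (hc : 1 ≤ c) (hs : 1 ≤ s) (hk : 1 ≤ k) (hsc : s ∣ c) {C' e : ℝ}
    (hC' : 1 ≤ C') (hdiv : ∀ n : ℕ, 0 < n → ((n.divisors.card : ℕ) : ℝ) ≤ C' * (n : ℝ) ^ e)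
    {K : ℝ} {z y : ℕ} (hz : 1 ≤ z) (hy : 1 ≤ y) (hK : C' * ((y * k : ℕ) : ℝ) ^ e ≤ K)
    (F : Finset ℤ) (hF : ∀ x ∈ F, MS p N c s k Z (z, y, x)) :
    (F.card : ℝ) ≤ 8 * K * (2 * N / √(4 * (c : ℝ) * (z : ℝ) ^ p) / (s * (k : ℝ) ^ 2) + 2) := by
  have hN0 : 0 < N := by linarith
  have hK0 : 0 ≤ K := le_trans (by positivity) hK
  rcases F.eq_empty_or_nonempty with h0 | ⟨x₀, hx₀⟩
  · rw [h0]
    simp only [Finset.card_empty, Nat.cast_zero]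
    positivity
  · have hco : Nat.Coprime (y * k) (c * z) := (hF x₀ hx₀).co
    have h1 := hMUX p N c s k z y hp hN0 hc hs hk hz hy hsc hco F
      (fun x hx => ⟨(hF x hx).sx, (hF x hx).dv, (hF x hx).n1, (hF x hx).n2⟩)
    have hyk : 1 ≤ y * k := Nat.mul_pos hy hk
    obtain ⟨hk1, hk2⟩ := hKAP.1 2 (y * k) ((c * z : ℕ) : ℤ) hyk
    have hkR0 : (0 : ℝ) ≤ (kap 2 (y * k) ((c * z : ℕ) : ℤ) : ℝ) := by exact_mod_cast hk1
    have hkR : (kap 2 (y * k) ((c * z : ℕ) : ℤ) : ℝ) ≤ K := by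
      have h2 : (kap 2 (y * k) ((c * z : ℕ) : ℤ) : ℝ) ≤ (((y * k).divisors.card : ℕ) : ℝ) := by
        exact_mod_cast hk2
      exact h2.trans ((hdiv _ hyk).trans hK)
    have hz0 : (0 : ℝ) < z := by exact_mod_cast hz
    have hc0 : (0 : ℝ) < c := by exact_mod_cast hc
    have hs0 : (0 : ℝ) < s := by exact_mod_cast hs
    have hkk : (0 : ℝ) < k := by exact_mod_cast hk
    have hy0 : (0 : ℝ) < y := by exact_mod_cast hy
    have hT : (0 : ℝ) < 4 * (c : ℝ) * (z : ℝ) ^ p := by positivity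
    set T : ℝ := 4 * (c : ℝ) * (z : ℝ) ^ p with hTdef
    have hell := hRW.1 T N y hT hN0 hy0
    have hsq : (0 : ℝ) ≤ y * √(N / T) := by positivity
    obtain ⟨hg0, hg1⟩ := hRW.2.1 _ hsq
    have hA : 0 ≤ 2 * N / √T := by positivity
    have he1 : ell T N y / y ^ 2 ≤ 2 * N / √T := by
      rw [hell]
      calc 2 * N / √T * Gf (y * √(N / T)) ≤ 2 * N / √T * 1 := mul_le_mul_of_nonneg_left hg1 hA
        _ = 2 * N / √T := mul_one _
    have he0 : 0 ≤ ell T N y / y ^ 2 := by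
      rw [hell]
      exact mul_nonneg hA hg0
    have hre : ell T N y / (s * (y : ℝ) ^ 2 * (k : ℝ) ^ 2) =
        ell T N y / y ^ 2 / (s * (k : ℝ) ^ 2) := by
      field_simp
    rw [hre] at h1
    have hsk : (0 : ℝ) < s * (k : ℝ) ^ 2 := by positivity
    have hE0 : 0 ≤ ell T N y / y ^ 2 / (s * (k : ℝ) ^ 2) := div_nonneg he0 hsk.le
    have hE1 : ell T N y / y ^ 2 / (s * (k : ℝ) ^ 2) ≤ 2 * N / √T / (s * (k : ℝ) ^ 2) :=
      div_le_div_of_nonneg_right he1 hsk.le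
    refine h1.trans ?_
    have h8 : 8 * (kap 2 (y * k) ((c * z : ℕ) : ℤ) : ℝ) ≤ 8 * K := by linarith
    exact mul_le_mul h8 (by linarith) (by linarith) (by linarith)

theorem MU1_pow {p : ℕ} (hp : Odd p) {N Z : ℝ} {c k y : ℕ} (hN : 1 ≤ N) (hZ : 1 ≤ Z) (hc : 1 ≤ c)
    (hk : 1 ≤ k) (hy : (y : ℝ) ≤ 2 * VV p N c Z) {ε : ℝ} (hε : 0 < ε) :
    ((y * k : ℕ) : ℝ) ^ (ε / p) ≤ (4 : ℝ) ^ ε * (N * Z * c * k) ^ ε := by
  have hp1 : 1 ≤ p := hp.pos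
  have hpR : (p : ℝ) ≠ 0 := by
    have : (0 : ℝ) < p := by exact_mod_cast hp1
    exact this.ne'
  have hcR : (1 : ℝ) ≤ c := by exact_mod_cast hc
  have hkR : (1 : ℝ) ≤ k := by exact_mod_cast hk
  have hZp : 1 ≤ Z ^ p := one_le_pow₀ hZ
  have hcZ : 1 ≤ (c : ℝ) * Z ^ p := one_le_mul_of_one_le_of_one_le hcR hZp
  have hV : VV p N c Z ≤ 2 * ((c : ℝ) * Z ^ p) := by
    unfold VV
    rw [Real.sqrt_le_left (by positivity)]
    have h1 : 4 * (c : ℝ) * Z ^ p / N ≤ 4 * (c : ℝ) * Z ^ p := div_le_self (by positivity) hN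
    have h2 : 4 * (c : ℝ) * Z ^ p ≤ (2 * ((c : ℝ) * Z ^ p)) ^ 2 := by nlinarith
    exact h1.trans h2
  have h3 : ((y * k : ℕ) : ℝ) ≤ (4 * (N * Z * c * k)) ^ p := by
    push_cast
    have h4 : (y : ℝ) * k ≤ 4 * ((c : ℝ) * Z ^ p) * k :=
      mul_le_mul_of_nonneg_right (by linarith) (by linarith)
    have h5 : (4 : ℝ) ≤ 4 ^ p := le_self_pow₀ (by norm_num) (by omega)
    have h6 : (c : ℝ) ≤ (c : ℝ) ^ p := le_self_pow₀ hcR (by omega)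
    have h7 : (k : ℝ) ≤ (k : ℝ) ^ p := le_self_pow₀ hkR (by omega)
    have h8 : (1 : ℝ) ≤ N ^ p := one_le_pow₀ hN
    have h9 : (4 * (N * Z * c * k)) ^ p = 4 ^ p * (N ^ p * Z ^ p * (c : ℝ) ^ p * (k : ℝ) ^ p) := by
      simp only [mul_pow]
    rw [h9]
    refine h4.trans ?_
    calc 4 * ((c : ℝ) * Z ^ p) * k = 4 * (1 * Z ^ p * c * k) := by ring
      _ ≤ 4 ^ p * (N ^ p * Z ^ p * (c : ℝ) ^ p * (k : ℝ) ^ p) := by gcongr
  have hpos : (0 : ℝ) ≤ 4 * (N * Z * c * k) := by positivity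
  calc ((y * k : ℕ) : ℝ) ^ (ε / p) ≤ ((4 * (N * Z * c * k)) ^ p) ^ (ε / p) :=
        Real.rpow_le_rpow (Nat.cast_nonneg _) h3 (by positivity)
    _ = (4 * (N * Z * c * k)) ^ ε := by
        rw [← Real.rpow_natCast_mul hpos]
        congr 1
        field_simp
    _ = (4 : ℝ) ^ ε * (N * Z * c * k) ^ ε := Real.mul_rpow (by norm_num) (by positivity)

theorem MU1_y {p : ℕ} {N Z : ℝ} {c s k : ℕ} {t : ℕ × ℕ × ℤ} (hN : 1 ≤ N)
    (h : MS p N c s k Z t) :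
    (t.2.1 : ℝ) ≤ √2 * √(4 * (c : ℝ) * (t.1 : ℝ) ^ p / N) := by
  have hN0 : 0 < N := by linarith
  have h1 := h.n1
  have h2 : (t.2.1 : ℝ) ^ 2 ≤ 2 * (4 * (c : ℝ) * (t.1 : ℝ) ^ p / N) := by
    have h3 : 0 ≤ (t.2.2 : ℝ) ^ 2 := sq_nonneg _
    rw [← mul_div_assoc, le_div_iff₀ hN0]
    nlinarith
  rw [← Real.sqrt_mul (by norm_num)]
  exact (le_abs_self _).trans (Real.abs_le_sqrt h2)

theorem MU1_T {p : ℕ} {N Z : ℝ} {c : ℕ} {z : ℕ} (hN : 1 ≤ N) (hz : (z : ℝ) ≤ Z) :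
    √(4 * (c : ℝ) * (z : ℝ) ^ p / N) ≤ VV p N c Z := by
  have hN0 : 0 < N := by linarith
  unfold VV
  apply Real.sqrt_le_sqrt
  apply div_le_div_of_nonneg_right _ hN0.le
  apply mul_le_mul_of_nonneg_left _ (by positivity)
  exact pow_le_pow_left₀ (Nat.cast_nonneg z) hz p

theorem MU1_x {p : ℕ} {N Z : ℝ} {c s k : ℕ} {t : ℕ × ℕ × ℤ} (hN : 1 ≤ N)
    (h : MS p N c s k Z t) :
    t.2.2 ∈ Icc (-((⌈4 * (c : ℝ) * Z ^ p⌉₊ : ℕ) : ℤ)) ((⌈4 * (c : ℝ) * Z ^ p⌉₊ : ℕ) : ℤ) := by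
  have h1 := h.n1
  have h2 : (t.2.2 : ℝ) ^ 2 ≤ 4 * (c : ℝ) * (t.1 : ℝ) ^ p := by
    have h3 : 0 ≤ N / 2 * (t.2.1 : ℝ) ^ 2 := by positivity
    linarith
  have h4 : 4 * (c : ℝ) * (t.1 : ℝ) ^ p ≤ 4 * (c : ℝ) * Z ^ p := by
    apply mul_le_mul_of_nonneg_left _ (by positivity)
    exact pow_le_pow_left₀ (Nat.cast_nonneg _) h.z2 p
  have h5 : (t.2.2 : ℝ) ^ 2 ≤ ((⌈4 * (c : ℝ) * Z ^ p⌉₊ : ℕ) : ℝ) :=
    (h2.trans h4).trans (Nat.le_ceil _)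
  have h6 : t.2.2 ^ 2 ≤ ((⌈4 * (c : ℝ) * Z ^ p⌉₊ : ℕ) : ℤ) := by exact_mod_cast h5
  have h7 : |t.2.2| ≤ t.2.2 ^ 2 := by
    rw [← sq_abs t.2.2]
    rcases eq_or_lt_of_le (abs_nonneg t.2.2) with h0 | h0
    · rw [← h0]
      norm_num
    · nlinarith
  rw [Finset.mem_Icc]
  exact abs_le.1 (h7.trans h6)

open Classical in
theorem MU1_main (hMUX : MUX_stmt) (hKAP : KAP_stmt) (hRW : RW_stmt) {p : ℕ} (hp : Odd p) {N Z : ℝ}
    (hN : 1 ≤ N) (hZ : 1 ≤ Z) {c s k : ℕ} (hc : 1 ≤ c) (hs : 1 ≤ s) (hk : 1 ≤ k) (hsc : s ∣ c)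
    {C' e : ℝ} (hC' : 1 ≤ C')
    (hdiv : ∀ n : ℕ, 0 < n → ((n.divisors.card : ℕ) : ℝ) ≤ C' * (n : ℝ) ^ e)
    {K : ℝ} (hK0 : 0 ≤ K)
    (hK : ∀ y : ℕ, (y : ℝ) ≤ 2 * VV p N c Z → C' * ((y * k : ℕ) : ℝ) ^ e ≤ K) :
    {t : ℕ × ℕ × ℤ | MS p N c s k Z t}.Finite ∧
    ({t : ℕ × ℕ × ℤ | MS p N c s k Z t}.ncard : ℝ) ≤
      Z * (8 * K * (2 * √2 * √N / (s * (k : ℝ) ^ 2) + 2 * √2 * VV p N c Z)) := by
  have hN0 : 0 < N := by linarith
  set B : ℕ := ⌈4 * (c : ℝ) * Z ^ p⌉₊ with hB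
  set Yz : ℕ → ℕ := fun z => ⌊√2 * √(4 * (c : ℝ) * (z : ℝ) ^ p / N)⌋₊ with hYz
  set F : ℕ → ℕ → Finset ℤ := fun z y =>
    (Icc (-(B : ℤ)) (B : ℤ)).filter (fun x => MS p N c s k Z (z, y, x)) with hFdef
  set 𝓕 : Finset (ℕ × ℕ × ℤ) := (Ioc 0 ⌊Z⌋₊).biUnion fun z => (Ioc 0 (Yz z)).biUnion fun y =>
    (F z y).image (fun x : ℤ => ((z, y, x) : ℕ × ℕ × ℤ)) with h𝓕
  have hsub : {t : ℕ × ℕ × ℤ | MS p N c s k Z t} ⊆ (𝓕 : Set (ℕ × ℕ × ℤ)) := by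
    rintro ⟨z, y, x⟩ ht
    have ht' : MS p N c s k Z (z, y, x) := ht
    rw [Finset.mem_coe, h𝓕, Finset.mem_biUnion]
    have hz1 : 0 < z := by
      rcases Nat.eq_zero_or_pos z with h0 | h0
      · exfalso
        have h1 := ht'.z1
        rw [h0] at h1
        simp only [Nat.cast_zero] at h1
        linarith
      · exact h0
    refine ⟨z, Finset.mem_Ioc.2 ⟨hz1, Nat.le_floor ht'.z2⟩, ?_⟩
    rw [Finset.mem_biUnion]
    refine ⟨y, Finset.mem_Ioc.2 ⟨ht'.y1, Nat.le_floor (MU1_y hN ht')⟩, ?_⟩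
    rw [Finset.mem_image]
    refine ⟨x, ?_, rfl⟩
    rw [hFdef, Finset.mem_filter]
    exact ⟨MU1_x hN ht', ht'⟩
  refine ⟨(Finset.finite_toSet 𝓕).subset hsub, ?_⟩
  have h1 : {t : ℕ × ℕ × ℤ | MS p N c s k Z t}.ncard ≤ 𝓕.card := by
    have := Set.ncard_le_ncard hsub (Finset.finite_toSet 𝓕)
    rwa [Set.ncard_coe_finset] at this
  have h2 : 𝓕.card ≤ ∑ z ∈ Ioc 0 ⌊Z⌋₊, ∑ y ∈ Ioc 0 (Yz z), (F z y).card :=
    Finset.card_biUnion_le.trans (Finset.sum_le_sum fun z _ =>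
      Finset.card_biUnion_le.trans (Finset.sum_le_sum fun y _ => Finset.card_image_le))
  have h3 : ({t : ℕ × ℕ × ℤ | MS p N c s k Z t}.ncard : ℝ) ≤
      ∑ z ∈ Ioc 0 ⌊Z⌋₊, ∑ y ∈ Ioc 0 (Yz z), ((F z y).card : ℝ) := by
    exact_mod_cast h1.trans h2
  refine h3.trans ?_
  have hs0 : (0 : ℝ) < s := by exact_mod_cast hs
  have hk0 : (0 : ℝ) < k := by exact_mod_cast hk
  have hc0 : (0 : ℝ) < c := by exact_mod_cast hc
  have hsk : (0 : ℝ) < s * (k : ℝ) ^ 2 := by positivity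
  have hV0 : 0 ≤ VV p N c Z := Real.sqrt_nonneg _
  have h20 : (0 : ℝ) ≤ √2 := Real.sqrt_nonneg _
  have h22 : √2 ≤ (2 : ℝ) := by
    rw [Real.sqrt_le_left (by norm_num)]
    norm_num
  have hin : ∀ z ∈ Ioc 0 ⌊Z⌋₊, ∑ y ∈ Ioc 0 (Yz z), ((F z y).card : ℝ) ≤
      8 * K * (2 * √2 * √N / (s * (k : ℝ) ^ 2) + 2 * √2 * VV p N c Z) := by
    intro z hz
    rw [Finset.mem_Ioc] at hz
    have hzZ : (z : ℝ) ≤ Z := (Nat.le_floor_iff (by linarith)).1 hz.2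
    have hz0 : (0 : ℝ) < z := by exact_mod_cast hz.1
    have hT : (0 : ℝ) < 4 * (c : ℝ) * (z : ℝ) ^ p := by positivity
    have hTV := MU1_T (p := p) (c := c) hN hzZ
    set T : ℝ := 4 * (c : ℝ) * (z : ℝ) ^ p with hTdef
    have hw : ((Yz z : ℕ) : ℝ) ≤ √2 * √(T / N) := Nat.floor_le (by positivity)
    have ha : 0 ≤ 2 * N / √T / (s * (k : ℝ) ^ 2) + 2 := by positivity
    calc ∑ y ∈ Ioc 0 (Yz z), ((F z y).card : ℝ)
        ≤ ∑ y ∈ Ioc 0 (Yz z), 8 * K * (2 * N / √T / (s * (k : ℝ) ^ 2) + 2) := by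
          apply Finset.sum_le_sum
          intro y hy
          rw [Finset.mem_Ioc] at hy
          refine MU1_pair (Z := Z) hMUX hKAP hRW hp hN hc hs hk hsc hC' hdiv hz.1 hy.1 (hK y ?_) (F z y) ?_
          · have h5 : (y : ℝ) ≤ √2 * √(T / N) := by
              refine le_trans ?_ hw
              exact_mod_cast hy.2
            refine h5.trans ?_
            exact mul_le_mul h22 hTV (Real.sqrt_nonneg _) (by norm_num)
          · intro x hx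
            rw [hFdef] at hx
            exact (Finset.mem_filter.1 hx).2
      _ = ((Yz z : ℕ) : ℝ) * (8 * K * (2 * N / √T / (s * (k : ℝ) ^ 2) + 2)) := by
          rw [Finset.sum_const, Nat.card_Ioc, nsmul_eq_mul, Nat.sub_zero]
      _ ≤ (√2 * √(T / N)) * (8 * K * (2 * N / √T / (s * (k : ℝ) ^ 2) + 2)) :=
          mul_le_mul_of_nonneg_right hw (by positivity)
      _ = 8 * K * (2 * √2 * √N / (s * (k : ℝ) ^ 2) + 2 * √2 * √(T / N)) := by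
          have hq : √(T / N) = √T / √N := Real.sqrt_div hT.le N
          have hN2 : N = √N * √N := (Real.mul_self_sqrt hN0.le).symm
          have hsN : √N ≠ 0 := (Real.sqrt_pos.2 hN0).ne'
          have hsT : √T ≠ 0 := (Real.sqrt_pos.2 hT).ne'
          have hkey : √(T / N) * (2 * N / √T) = 2 * √N := by
            rw [hq]
            have h6 : √T / √N * (2 * N / √T) = 2 * (N / √N) := by
              field_simp
            rw [h6]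
            congr 1
            rw [div_eq_iff hsN]
            exact hN2
          calc (√2 * √(T / N)) * (8 * K * (2 * N / √T / (s * (k : ℝ) ^ 2) + 2))
              = 8 * K * (√2 * (√(T / N) * (2 * N / √T)) / (s * (k : ℝ) ^ 2) +
                  2 * √2 * √(T / N)) := by ring
            _ = 8 * K * (2 * √2 * √N / (s * (k : ℝ) ^ 2) + 2 * √2 * √(T / N)) := by
                rw [hkey]
                ring
      _ ≤ 8 * K * (2 * √2 * √N / (s * (k : ℝ) ^ 2) + 2 * √2 * VV p N c Z) := by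
          apply mul_le_mul_of_nonneg_left _ (by positivity)
          have h7 : 2 * √2 * √(T / N) ≤ 2 * √2 * VV p N c Z :=
            mul_le_mul_of_nonneg_left hTV (by positivity)
          linarith
  refine (Finset.sum_le_sum hin).trans ?_
  rw [Finset.sum_const, Nat.card_Ioc, nsmul_eq_mul, Nat.sub_zero]
  apply mul_le_mul_of_nonneg_right (Nat.floor_le (by linarith))
  have h8 : 0 ≤ 2 * √2 * √N / (s * (k : ℝ) ^ 2) := by positivity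
  positivity

theorem MU1 (hMUX : MUX_stmt) (hKAP : KAP_stmt) (hRW : RW_stmt) : MU1r_stmt := by
  intro p hp ε hε
  have hp1 : 1 ≤ p := hp.pos
  have hp0 : (0 : ℝ) < p := by exact_mod_cast hp1
  obtain ⟨C', hC', hdiv⟩ := Pool.Agent.helper47.RA.card_divisors_le (ε / p) (div_pos hε hp0)
  have h4 : (1 : ℝ) ≤ (4 : ℝ) ^ ε := Real.one_le_rpow (by norm_num) hε.le
  refine ⟨C' * 4 ^ ε * 32, ?_, ?_⟩
  · have h5 : 1 ≤ C' * (4 : ℝ) ^ ε := one_le_mul_of_one_le_of_one_le hC' h4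
    linarith
  · intro N Z c s k hN hZ hc hs hk hsc
    have hcR : (1 : ℝ) ≤ c := by exact_mod_cast hc
    have hkR : (1 : ℝ) ≤ k := by exact_mod_cast hk
    have hsR : (1 : ℝ) ≤ s := by exact_mod_cast hs
    have hP : (0 : ℝ) ≤ (N * Z * c * k) ^ ε := by positivity
    have hC0 : 0 ≤ C' := by linarith
    have h40 : (0 : ℝ) ≤ (4 : ℝ) ^ ε := by linarith
    obtain ⟨hfin, hcard⟩ := MU1_main hMUX hKAP hRW hp hN hZ hc hs hk hsc hC' hdiv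
      (K := C' * ((4 : ℝ) ^ ε * (N * Z * c * k) ^ ε)) (by positivity)
      (fun y hy => mul_le_mul_of_nonneg_left (MU1_pow hp hN hZ hc hk hy hε) hC0)
    refine ⟨hfin, hcard.trans ?_⟩
    have h22 : √2 ≤ (2 : ℝ) := by
      rw [Real.sqrt_le_left (by norm_num)]
      norm_num
    have hV0 : 0 ≤ VV p N c Z := Real.sqrt_nonneg _
    have hA : 0 ≤ √N / (s * (k : ℝ) ^ 2) := by positivity
    have h6 : 2 * √2 * √N / (s * (k : ℝ) ^ 2) + 2 * √2 * VV p N c Z ≤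
        4 * (√N / (s * (k : ℝ) ^ 2) + VV p N c Z) := by
      have h7 : 2 * √2 * √N / (s * (k : ℝ) ^ 2) + 2 * √2 * VV p N c Z =
        2 * √2 * (√N / (s * (k : ℝ) ^ 2) + VV p N c Z) := by ring
      rw [h7]
      exact mul_le_mul_of_nonneg_right (by linarith) (by positivity)
    calc Z * (8 * (C' * ((4 : ℝ) ^ ε * (N * Z * c * k) ^ ε)) *
          (2 * √2 * √N / (s * (k : ℝ) ^ 2) + 2 * √2 * VV p N c Z))
        ≤ Z * (8 * (C' * ((4 : ℝ) ^ ε * (N * Z * c * k) ^ ε)) *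
          (4 * (√N / (s * (k : ℝ) ^ 2) + VV p N c Z))) := by
          apply mul_le_mul_of_nonneg_left _ (by linarith)
          exact mul_le_mul_of_nonneg_left h6 (by positivity)
      _ = C' * 4 ^ ε * 32 * (N * Z * c * k) ^ ε *
          (Z * √N / (s * (k : ℝ) ^ 2) + Z * VV p N c Z) := by ring

end Pool.Agent.AP
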